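import Pool.Agent.Helper88.D4.Stmts

/-!
# Project D4: the vector field `Z` (pieces S_Z and S_Zu)
-/

set_option autoImplicit false

namespace Pool.Agent.Helper87.D4

open Module Pool.Agent.Helper37.SD Pool.Agent.Helper20.TS Pool.Agent.Helper88.D4

variable {K : Type} [Field K] [Algebra ℂ K]

theorem J_add {J : Bra K} (hJ : IsAlt J) (p q x y : K) : J (p + q) x y = J p x y + J q x y := by
  ext u
  rw [Derivation.add_apply, hJ.s1 (p + q) u x y, hJ.s1 p u x y, hJ.s1 q u x y, map_add]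
  ring

theorem J_mul {J : Bra K} (hJ : IsAlt J) (p q x y : K) :
    J (p * q) x y = p • J q x y + q • J p x y := by
  ext u
  rw [Derivation.add_apply, Derivation.smul_apply, Derivation.smul_apply, hJ.s1 (p * q) u x y,
    hJ.s1 p u x y, hJ.s1 q u x y, Derivation.leibniz]
  simp only [smul_eq_mul]
  ring

theorem J_smul {J : Bra K} (hJ : IsAlt J) (c : ℂ) (p x y : K) : J (c • p) x y = c • J p x y := by
  ext u
  rw [Derivation.smul_apply, hJ.s1 (c • p) u x y, hJ.s1 p u x y, Derivation.map_smul, smul_neg]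

/-- `Z φ = t • (α (J φ x y) / (x * y))` -/
noncomputable def Zd (J : Bra K) (hJ : IsAlt J) (α : Pool.Agent.Helper88.D4.One K) (x y : K) (t : ℂ) :
    Derivation ℂ K K :=
  Derivation.mk'
    { toFun := fun φ => t • (α (J φ x y) / (x * y))
      map_add' := fun p q => by
        rw [J_add hJ, map_add, add_div, smul_add]
      map_smul' := fun c p => by
        have h : α (c • J p x y) = c • α (J p x y) := by
          rw [← algebraMap_smul K c (J p x y), map_smul, algebraMap_smul]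
        rw [J_smul hJ, h, smul_div_assoc, smul_comm]
        rfl }
    (fun p q => by
      change t • (α (J (p * q) x y) / (x * y)) = p • (t • (α (J q x y) / (x * y))) +
        q • (t • (α (J p x y) / (x * y)))
      rw [J_mul hJ, map_add, map_smul, map_smul]
      simp only [smul_eq_mul, Algebra.smul_def]
      ring)

theorem Zd_apply (J : Bra K) (hJ : IsAlt J) (α : Pool.Agent.Helper88.D4.One K) (x y : K) (t : ℂ) (φ : K) :
    Zd J hJ α x y t φ = t • (α (J φ x y) / (x * y)) := rfl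

/-- the explicit determinant -/
theorem dt_eq (D : Fin 4 → Derivation ℂ K K) (f : Fin 4 → K) :
    dt D f =
      D 0 (f 0) * (D 1 (f 1) * (D 2 (f 2) * D 3 (f 3) - D 2 (f 3) * D 3 (f 2))
        - D 1 (f 2) * (D 2 (f 1) * D 3 (f 3) - D 2 (f 3) * D 3 (f 1))
        + D 1 (f 3) * (D 2 (f 1) * D 3 (f 2) - D 2 (f 2) * D 3 (f 1)))
      - D 0 (f 1) * (D 1 (f 0) * (D 2 (f 2) * D 3 (f 3) - D 2 (f 3) * D 3 (f 2))
        - D 1 (f 2) * (D 2 (f 0) * D 3 (f 3) - D 2 (f 3) * D 3 (f 0))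
        + D 1 (f 3) * (D 2 (f 0) * D 3 (f 2) - D 2 (f 2) * D 3 (f 0)))
      + D 0 (f 2) * (D 1 (f 0) * (D 2 (f 1) * D 3 (f 3) - D 2 (f 3) * D 3 (f 1))
        - D 1 (f 1) * (D 2 (f 0) * D 3 (f 3) - D 2 (f 3) * D 3 (f 0))
        + D 1 (f 3) * (D 2 (f 0) * D 3 (f 1) - D 2 (f 1) * D 3 (f 0)))
      - D 0 (f 3) * (D 1 (f 0) * (D 2 (f 1) * D 3 (f 2) - D 2 (f 2) * D 3 (f 1))
        - D 1 (f 1) * (D 2 (f 0) * D 3 (f 2) - D 2 (f 2) * D 3 (f 0))
        + D 1 (f 2) * (D 2 (f 0) * D 3 (f 1) - D 2 (f 1) * D 3 (f 0))) := by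
  rw [dt, Matrix.det_succ_row_zero]
  simp only [Matrix.det_fin_three, Fin.sum_univ_succ, Matrix.submatrix_apply, Matrix.of_apply]
  simp [Fin.succAbove]
  ring

theorem dt_smul_brk {J : Bra K} (hJD : S_JD) (ht : Algebra.trdeg ℂ K = 4) (hJ : IsAlt J)
    (D : Fin 4 → Derivation ℂ K K) (f g : Fin 4 → K) : brk J f * dt D g = brk J g * dt D f :=
  hJD K J ht hJ D f g

theorem exists_frame {J : Bra K} (hJ : IsAlt J) : ∃ z : Fin 4 → K, brk J z ≠ 0 := by
  obtain ⟨x, y, z, w, h⟩ := hJ.ne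
  exact ⟨![x, y, z, w], h⟩

theorem dt_dfr {J : Bra K} {z : Fin 4 → K}
    (h1 : ∀ i j, dfr J z i (z j) = if i = j then 1 else 0) : dt (dfr J z) z = 1 := by
  have h : (Matrix.of fun i j => dfr J z i (z j)) = (1 : Matrix (Fin 4) (Fin 4) K) := by
    ext i j
    rw [Matrix.of_apply, h1, Matrix.one_apply]
  rw [dt, h, Matrix.det_one]

/-- two functions with independent weights are part of a frame -/
theorem exists_fr {J : Bra K} (hJD : S_JD) (hAI : S_AI) (ht : Algebra.trdeg ℂ K = 4)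
    (hJ : IsAlt J) (A B : Derivation ℂ K K) (x y : K) (h : A x * B y - B x * A y ≠ 0) :
    ∃ p q : K, brk J ![p, q, x, y] ≠ 0 := by
  by_contra hcon
  push Not at hcon
  obtain ⟨z, hz⟩ := exists_frame hJ
  obtain ⟨h1, h2⟩ := (hAI K J ht hJ).2.1 z hz
  have key : ∀ p q : K, dt (dfr J z) ![p, q, x, y] = 0 := by
    intro p q
    have e := hJD K J ht hJ (dfr J z) ![p, q, x, y] z
    rw [hcon p q, zero_mul] at e
    exact (mul_eq_zero.1 e.symm).resolve_left hz
  have eA : A = ∑ i, A (z i) • dfr J z i := h2 A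
  have eB : B = ∑ i, B (z i) • dfr J z i := h2 B
  have k01 := key (z 0) (z 1)
  have k02 := key (z 0) (z 2)
  have k03 := key (z 0) (z 3)
  have k12 := key (z 1) (z 2)
  have k13 := key (z 1) (z 3)
  have k23 := key (z 2) (z 3)
  simp only [dt_eq, Matrix.cons_val_zero, Matrix.cons_val_one, Matrix.cons_val, h1] at k01 k02 k03 k12 k13 k23
  simp at k01 k02 k03 k12 k13 k23
  apply h
  have hx : ∀ E : Derivation ℂ K K, ∀ u, E u = E (z 0) * dfr J z 0 u + E (z 1) * dfr J z 1 u +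
      E (z 2) * dfr J z 2 u + E (z 3) * dfr J z 3 u := by
    intro E u
    conv_lhs => rw [h2 E]
    simp only [Fin.sum_univ_four, Derivation.add_apply, Derivation.smul_apply, smul_eq_mul]
  rw [hx A x, hx A y, hx B x, hx B y]
  linear_combination (A (z 2) * B (z 3) - A (z 3) * B (z 2)) * k01 -
    (A (z 1) * B (z 3) - A (z 3) * B (z 1)) * k02 + (A (z 1) * B (z 2) - A (z 2) * B (z 1)) * k03 +
    (A (z 0) * B (z 3) - A (z 3) * B (z 0)) * k12 - (A (z 0) * B (z 2) - A (z 2) * B (z 0)) * k13 +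
    (A (z 0) * B (z 1) - A (z 1) * B (z 0)) * k23

theorem charZ (K : Type) [Field K] [Algebra ℂ K] : CharZero K :=
  charZero_of_injective_algebraMap (algebraMap ℂ K).injective

theorem J_self12 {J : Bra K} (hJ : IsAlt J) (x y : K) : J x x y = 0 := by
  have := charZ K
  have h := hJ.s2 x x y
  ext u
  have h2 := congrArg (fun D => D u) h
  simp only [Derivation.neg_apply] at h2
  have h3 : (2 : K) * J x x y u = 0 := by linear_combination h2
  exact (mul_eq_zero.1 h3).resolve_left two_ne_zero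

theorem J_self23 {J : Bra K} (hJ : IsAlt J) (x y : K) : J x y y = 0 := by
  have := charZ K
  have h := hJ.s3 x y y
  ext u
  have h2 := congrArg (fun D => D u) h
  simp only [Derivation.neg_apply] at h2
  have h3 : (2 : K) * J x y y u = 0 := by linear_combination h2
  exact (mul_eq_zero.1 h3).resolve_left two_ne_zero

theorem J_self13 {J : Bra K} (hJ : IsAlt J) (x y : K) : J y x y = 0 := by
  rw [hJ.s2 x y y, J_self23 hJ, neg_zero]

/-- `Z` given by two homogeneous functions -/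
theorem s_Z (hJD : S_JD) (hAI : S_AI) : S_Z := by
  intro K _ _ J H α ht hJ hH hα x y m m' hx hy hm hm' hne
  have hd : (m 0 : ℂ) * m' 1 - (m 1 : ℂ) * m' 0 ≠ 0 := by
    rw [sub_ne_zero]
    exact_mod_cast hne
  set d : ℂ := (m 0 : ℂ) * m' 1 - (m 1 : ℂ) * m' 0 with hd'
  have hdK : algebraMap ℂ K d ≠ 0 := fun h =>
    hd ((algebraMap ℂ K).injective (by rw [h, map_zero]))
  have ex : ∀ i, H i x = algebraMap ℂ K (m i : ℂ) * x := fun i => by
    rw [hm i, Algebra.smul_def]
  have ey : ∀ i, H i y = algebraMap ℂ K (m' i : ℂ) * y := fun i => by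
    rw [hm' i, Algebra.smul_def]
  have hdK2 : algebraMap ℂ K d = algebraMap ℂ K (m 0 : ℂ) * algebraMap ℂ K (m' 1 : ℂ) -
      algebraMap ℂ K (m 1 : ℂ) * algebraMap ℂ K (m' 0 : ℂ) := by
    rw [hd', map_sub, map_mul, map_mul]
  obtain ⟨p, q, hB⟩ := exists_fr hJD hAI ht hJ (H 0) (H 1) x y (by
    rw [ex, ex, ey, ey]
    have : algebraMap ℂ K (m 0 : ℂ) * x * (algebraMap ℂ K (m' 1 : ℂ) * y) -
        algebraMap ℂ K (m 1 : ℂ) * x * (algebraMap ℂ K (m' 0 : ℂ) * y) =
        algebraMap ℂ K d * (x * y) := by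
      rw [hdK2]; ring
    rw [this]
    exact mul_ne_zero hdK (mul_ne_zero hx hy))
  refine ⟨-d⁻¹, Zd J hJ α x y (-d⁻¹), neg_ne_zero.2 (inv_ne_zero hd), ?_, fun φ => rfl⟩
  set f : Fin 4 → K := ![p, q, x, y] with hf
  obtain ⟨h1, h2⟩ := (hAI K J ht hJ).2.1 f hB
  have hα2 : ∀ D : Derivation ℂ K K, α D = D p * α (dfr J f 0) + D q * α (dfr J f 1) +
      D x * α (dfr J f 2) + D y * α (dfr J f 3) := by
    intro D
    conv_lhs => rw [h2 D]
    simp only [Fin.sum_univ_four, map_add, map_smul, smul_eq_mul]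
    rfl
  have r0 := hα2 (H 0)
  have r1 := hα2 (H 1)
  rw [hα, ex, ey] at r0 r1
  have a0 : α (J q x y) = brk J f * α (dfr J f 0) := by
    have : dfr J f 0 = (brk J f)⁻¹ • J q x y := rfl
    rw [this, map_smul, smul_eq_mul, mul_inv_cancel_left₀ hB]
  have a1 : α (J p x y) = -(brk J f * α (dfr J f 1)) := by
    have : dfr J f 1 = -(brk J f)⁻¹ • J p x y := rfl
    rw [this, map_smul, smul_eq_mul]
    field_simp
  have zx : Zd J hJ α x y (-d⁻¹) x = 0 := by
    rw [Zd_apply, J_self12 hJ, map_zero, zero_div, smul_zero]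
  have zy : Zd J hJ α x y (-d⁻¹) y = 0 := by
    rw [Zd_apply, J_self13 hJ, map_zero, zero_div, smul_zero]
  have zp : algebraMap ℂ K d * (x * y) * Zd J hJ α x y (-d⁻¹) p =
      brk J f * α (dfr J f 1) := by
    rw [Zd_apply, a1, Algebra.smul_def, map_neg, map_inv₀]
    field_simp
  have zq : algebraMap ℂ K d * (x * y) * Zd J hJ α x y (-d⁻¹) q =
      -(brk J f * α (dfr J f 0)) := by
    rw [Zd_apply, a0, Algebra.smul_def, map_neg, map_inv₀]
    field_simp
  have key : ∀ D : Derivation ℂ K K, α D * brk J f =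
      dt ![Zd J hJ α x y (-d⁻¹), H 0, H 1, D] f := by
    intro D
    rw [dt_eq, hα2 D]
    have g0 : f 0 = p := rfl
    have g1 : f 1 = q := rfl
    have g2 : f 2 = x := rfl
    have g3 : f 3 = y := rfl
    have k0 : (![Zd J hJ α x y (-d⁻¹), H 0, H 1, D] : Fin 4 → Derivation ℂ K K) 0 =
      Zd J hJ α x y (-d⁻¹) := rfl
    have k1 : (![Zd J hJ α x y (-d⁻¹), H 0, H 1, D] : Fin 4 → Derivation ℂ K K) 1 = H 0 := rfl
    have k2 : (![Zd J hJ α x y (-d⁻¹), H 0, H 1, D] : Fin 4 → Derivation ℂ K K) 2 = H 1 := rfl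
    have k3 : (![Zd J hJ α x y (-d⁻¹), H 0, H 1, D] : Fin 4 → Derivation ℂ K K) 3 = D := rfl
    rw [k0, k1, k2, k3, g0, g1, g2, g3, zx, zy, ex, ex, ey, ey]
    have hP : algebraMap ℂ K d * (x * y) ≠ 0 := mul_ne_zero hdK (mul_ne_zero hx hy)
    apply mul_left_cancel₀ hP
    generalize Zd J hJ α x y (-d⁻¹) p = Zp at zp ⊢
    generalize Zd J hJ α x y (-d⁻¹) q = Zq at zq ⊢
    generalize α (dfr J f 0) = P at *
    generalize α (dfr J f 1) = Q at *
    generalize α (dfr J f 2) = R at *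
    generalize α (dfr J f 3) = S at *
    set u0 := algebraMap ℂ K (m 0 : ℂ)
    set u1 := algebraMap ℂ K (m 1 : ℂ)
    set v0 := algebraMap ℂ K (m' 0 : ℂ)
    set v1 := algebraMap ℂ K (m' 1 : ℂ)
    set dK := algebraMap ℂ K d
    set B := brk J f
    linear_combination (-(H 0 q * (u1 * x * D y - v1 * y * D x) -
        u0 * x * (H 1 q * D y - v1 * y * D q) + v0 * y * (H 1 q * D x - u1 * x * D q))) * zp +
      (H 0 p * (u1 * x * D y - v1 * y * D x) - u0 * x * (H 1 p * D y - v1 * y * D p) +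
        v0 * y * (H 1 p * D x - u1 * x * D p)) * zq +
      B * (u1 * x * D y - v1 * y * D x) * r0 - B * (u0 * x * D y - v0 * y * D x) * r1 +
      B * (D p * P + D q * Q + D x * R + D y * S) * (x * y) * hdK2
  intro D g
  have e := hJD K J ht hJ ![Zd J hJ α x y (-d⁻¹), H 0, H 1, D] f g
  rw [← key D] at e
  apply mul_left_cancel₀ hB
  rw [e]
  ring

/-- the maximal minors of a 3 x 4 matrix -/
theorem minors {K : Type} [Field K] (w p q : Fin 4 → K)
    (m0 : w 1 * (p 2 * q 3 - p 3 * q 2) - w 2 * (p 1 * q 3 - p 3 * q 1) +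
      w 3 * (p 1 * q 2 - p 2 * q 1) = 0)
    (m1 : w 0 * (p 2 * q 3 - p 3 * q 2) - w 2 * (p 0 * q 3 - p 3 * q 0) +
      w 3 * (p 0 * q 2 - p 2 * q 0) = 0)
    (m2 : w 0 * (p 1 * q 3 - p 3 * q 1) - w 1 * (p 0 * q 3 - p 3 * q 0) +
      w 3 * (p 0 * q 1 - p 1 * q 0) = 0)
    (m3 : w 0 * (p 1 * q 2 - p 2 * q 1) - w 1 * (p 0 * q 2 - p 2 * q 0) +
      w 2 * (p 0 * q 1 - p 1 * q 0) = 0) :
    ∀ i j k : Fin 4, w k * (p i * q j - p j * q i) =
      (w i * q j - w j * q i) * p k + (p i * w j - p j * w i) * q k := by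
  intro i j k
  fin_cases i <;> fin_cases j <;> fin_cases k <;>
    simp only [Fin.zero_eta, Fin.mk_one, Fin.reduceFinMk] <;>
    first
    | ring1
    | linear_combination m0
    | linear_combination -m0
    | linear_combination m1
    | linear_combination -m1
    | linear_combination m2
    | linear_combination -m2
    | linear_combination m3
    | linear_combination -m3

/-- `Z` is unique up to the torus -/
theorem s_Zu (hAI : S_AI) : S_Zu := by
  intro K _ _ J H α ht hJ hH Z Z' hZ hZ'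
  obtain ⟨z, hz⟩ := exists_frame hJ
  obtain ⟨h1, h2⟩ := (hAI K J ht hJ).2.1 z hz
  -- the determinants
  have hdet : ∀ D : Derivation ℂ K K, dt ![Z' - Z, H 0, H 1, D] z = 0 := by
    intro D
    have e := hZ D z
    have e' := hZ' D z
    rw [dt_eq] at e e' ⊢
    simp only [Matrix.cons_val_zero, Matrix.cons_val_one, Matrix.cons_val] at e e' ⊢
    simp only [Derivation.sub_apply]
    linear_combination e - e'
  have m : ∀ l, dt ![Z' - Z, H 0, H 1, dfr J z l] z = 0 := fun l => hdet _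
  have m0 := m 0
  have m1 := m 1
  have m2 := m 2
  have m3 := m 3
  simp only [dt_eq, Matrix.cons_val_zero, Matrix.cons_val_one, Matrix.cons_val, h1] at m0 m1 m2 m3
  simp at m0 m1 m2 m3
  have hmin : ∀ i j k : Fin 4,
      (Z' (z k) - Z (z k)) * (H 0 (z i) * H 1 (z j) - H 0 (z j) * H 1 (z i)) =
      ((Z' (z i) - Z (z i)) * H 1 (z j) - (Z' (z j) - Z (z j)) * H 1 (z i)) * H 0 (z k) +
      (H 0 (z i) * (Z' (z j) - Z (z j)) - H 0 (z j) * (Z' (z i) - Z (z i))) * H 1 (z k) := by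
    refine minors (fun k => Z' (z k) - Z (z k)) (fun k => H 0 (z k)) (fun k => H 1 (z k))
      ?_ ?_ ?_ ?_
    · linear_combination -m0
    · linear_combination m1
    · linear_combination -m2
    · linear_combination m3
  have hex : ∃ i j, H 0 (z i) * H 1 (z j) - H 0 (z j) * H 1 (z i) ≠ 0 := by
    by_contra hcon
    push Not at hcon
    have hH' := linearIndependent_fin2.1 hH
    have hne0 : H 0 ≠ 0 := hH.ne_zero 0
    have : ∃ i, H 0 (z i) ≠ 0 := by
      by_contra h
      push Not at h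
      apply hne0
      rw [h2 (H 0)]
      simp [h]
    obtain ⟨i, hi⟩ := this
    have e : H 0 (z i) • H 1 - H 1 (z i) • H 0 = 0 := by
      rw [h2 (H 0 (z i) • H 1 - H 1 (z i) • H 0)]
      apply Finset.sum_eq_zero
      intro j _
      have : (H 0 (z i) • H 1 - H 1 (z i) • H 0) (z j) = 0 := by
        rw [Derivation.sub_apply, Derivation.smul_apply, Derivation.smul_apply, smul_eq_mul,
          smul_eq_mul]
        linear_combination hcon i j
      rw [this, zero_smul]
    have hli := Fintype.linearIndependent_iff.1 hH ![-(H 1 (z i)), H 0 (z i)] (by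
      rw [Fin.sum_univ_two]
      simp only [Matrix.cons_val_zero, Matrix.cons_val_one]
      rw [neg_smul, neg_add_eq_sub]
      exact e) 1
    exact hi hli
  obtain ⟨i, j, hij⟩ := hex
  set μ := H 0 (z i) * H 1 (z j) - H 0 (z j) * H 1 (z i) with hμ
  refine ⟨((Z' (z i) - Z (z i)) * H 1 (z j) - (Z' (z j) - Z (z j)) * H 1 (z i)) / μ,
    (H 0 (z i) * (Z' (z j) - Z (z j)) - H 0 (z j) * (Z' (z i) - Z (z i))) / μ, ?_⟩
  generalize ha : ((Z' (z i) - Z (z i)) * H 1 (z j) - (Z' (z j) - Z (z j)) * H 1 (z i)) / μ = a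
  generalize hb : (H 0 (z i) * (Z' (z j) - Z (z j)) - H 0 (z j) * (Z' (z i) - Z (z i))) / μ = b
  rw [← sub_eq_zero]
  rw [h2 (Z' - (Z + a • H 0 + b • H 1))]
  apply Finset.sum_eq_zero
  intro k _
  have : (Z' - (Z + a • H 0 + b • H 1)) (z k) = 0 := by
    rw [Derivation.sub_apply, Derivation.add_apply, Derivation.add_apply, Derivation.smul_apply,
      Derivation.smul_apply, smul_eq_mul, smul_eq_mul, ← ha, ← hb]
    have hk := hmin i j k
    apply mul_left_cancel₀ hij
    rw [mul_zero]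
    field_simp
    linear_combination hk
  rw [this, zero_smul]

end Pool.Agent.Helper87.D4
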