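import Pool.Agent.Helper87.D4.XDx
import Pool.Agent.Helper88.D4.CM
import Pool.Agent.Helper37.D4.DEx
import Pool.Agent.Helper37.D4.T0
import Pool.Agent.Helper73.D4.OPTf

/-!
# Project D4 (MP_e1889a_ag), stage 7: no first integrals of degree `0` (piece S_XI1)
-/

set_option autoImplicit false

namespace Pool.Agent.Helper87.D4

open Module Pool.Agent.Helper37.SD Pool.Agent.Helper20.TS Pool.Agent.Helper88.D4
  Pool.Agent.Helper12.D4 Pool.Agent.Helper76.D4 Pool.Agent.Helper87.D4.DVZ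

variable {K : Type} [Field K] [Algebra ℂ K] {J : Bra K}

/-- `B (F, G) = ξ F * Z G - Z F * ξ G` is regular -/
theorem bb_mem {R : Subalgebra ℂ K} {ξ Z : Derivation ℂ K K} {a : ℝ} (hC : Cone4 R ξ J a)
    (hB : ∀ u, PDiv R u → ∀ F G, u.Ge 0 F → u.Ge 0 G → u.Ge 0 (ξ F * Z G - Z F * ξ G))
    {F G : K} (hF : F ∈ R) (hG : G ∈ R) : ξ F * Z G - Z F * ξ G ∈ R := by
  by_contra hcon
  obtain ⟨u, hu, hlt⟩ := Helper11.D4.s_EX1 K R hC.frac hC.fg hC.normal _ hcon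
  rcases hB u hu F G (ge_of_mem hu hF) (ge_of_mem hu hG) with h | h
  · exact hcon (by rw [h]; exact R.zero_mem)
  · exact absurd hlt (not_lt.2 h)

/-- the derivation `B (φ, ·)` -/
def yy (Z ξ : Derivation ℂ K K) (φ : K) (w : ℝ) : Derivation ℂ K K :=
  ((w : ℂ) • φ) • Z - Z φ • ξ

theorem yy_apply {Z ξ : Derivation ℂ K K} {φ : K} {w : ℝ} (hφ : ξ φ = (w : ℂ) • φ) (G : K) :
    yy Z ξ φ w G = ξ φ * Z G - Z φ * ξ G := by
  rw [yy, Derivation.sub_apply, Derivation.smul_apply, Derivation.smul_apply, smul_eq_mul,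
    smul_eq_mul, hφ]

theorem yy_mem {R : Subalgebra ℂ K} {ξ Z : Derivation ℂ K K} {a : ℝ} (hC : Cone4 R ξ J a)
    (hB : ∀ u, PDiv R u → ∀ F G, u.Ge 0 F → u.Ge 0 G → u.Ge 0 (ξ F * Z G - Z F * ξ G))
    {h : K} (hξh : ξ h = 0) (hZh : Z h = 0) {φ : K} {w : ℝ} (hφ : ξ φ = (w : ℂ) • φ) {i j : ℕ}
    (hφj : φ ∈ Sj R h j) {G : K} (hG : G ∈ Sj R h i) : yy Z ξ φ w G ∈ Sj R h (i + j) := by
  have hp : ∀ (D : Derivation ℂ K K), D h = 0 → ∀ n : ℕ, D (h ^ n) = 0 := by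
    intro D hD n
    rw [Derivation.leibniz_pow, hD, smul_zero, smul_zero]
  rw [yy_apply hφ]
  refine ⟨bb_mem hC hB hφj.1 hG.1, ?_⟩
  have h1 := bb_mem hC hB hφj.2 hG.2
  have e : (ξ φ * Z G - Z φ * ξ G) * h ^ (i + j) =
      ξ (φ * h ^ j) * Z (G * h ^ i) - Z (φ * h ^ j) * ξ (G * h ^ i) := by
    simp only [Derivation.leibniz, hp ξ hξh, hp Z hZh, smul_eq_mul, mul_zero, zero_add]
    ring
  rw [e]
  exact h1

theorem yy_wt {ξ Z : Derivation ℂ K K} {a : ℝ} (hZ : ⁅ξ, Z⁆ = ((-a : ℝ) : ℂ) • Z) {φ : K} {w : ℝ}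
    (hφ : ξ φ = (w : ℂ) • φ) {G : K} {c : ℝ} (hG : ξ G = (c : ℂ) • G) :
    ξ (yy Z ξ φ w G) = ((c + (w - a) : ℝ) : ℂ) • yy Z ξ φ w G := by
  have hξZ : ∀ g (c : ℝ), ξ g = (c : ℂ) • g → ξ (Z g) = ((c - a : ℝ) : ℂ) • Z g := by
    intro g c hg
    have h := congrArg (fun D => D g) hZ
    simp only [Derivation.commutator_apply, Derivation.smul_apply, hg, Derivation.map_smul] at h
    rw [sub_eq_iff_eq_add] at h
    rw [h, ← add_smul]
    congr 1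
    push_cast
    ring
  rw [yy_apply hφ, hφ, hG, map_sub, Derivation.leibniz, Derivation.leibniz, Derivation.map_smul,
    Derivation.map_smul, hφ, hG, hξZ _ _ hφ, hξZ _ _ hG]
  simp only [smul_eq_mul, Algebra.smul_def, Complex.ofReal_add, Complex.ofReal_sub, map_add,
    map_sub]
  ring

/-- **S_XI1** -/
theorem s_XI1 : S_XI1 := by
  intro K _ _ R ξ J v a V hC hM hFG Z hZ hne hB h hξh hZh
  by_contra hcst
  have ha : 0 < a := hM.apos
  obtain ⟨φ, j₀, w₀, o⟩ := Helper73.D4.s_OPT' K R ξ J a hC h hξh hcst (hFG h hξh hcst)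
  have hφ := o.deg
  have hw₀ := o.dpos
  set Y : Derivation ℂ K K := yy Z ξ φ w₀ with hY
  have hφ0 : ((w₀ : ℂ) • φ) ≠ 0 := smul_ne_zero (Complex.ofReal_ne_zero.2 hw₀.ne') o.ne
  have hY0 : Y ≠ 0 := by
    intro h0
    refine hne (Z φ / ((w₀ : ℂ) • φ)) (Derivation.ext fun g => ?_)
    have h1 := congrArg (fun D => D g) h0
    simp only [hY, yy, Derivation.sub_apply, Derivation.smul_apply, smul_eq_mul,
      Derivation.zero_apply] at h1
    rw [Derivation.smul_apply, smul_eq_mul, div_mul_eq_mul_div, eq_div_iff hφ0]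
    linear_combination h1
  have hY1 : Y 1 = 0 := Derivation.map_one_eq_zero Y
  have htw : ∀ (F : K) (j : ℕ), tw Y 1 1 F (j + 1) = Y (tw Y 1 1 F j) := by
    intro F j
    show Y (tw Y 1 1 F j) + _ = _
    rw [hY1]
    simp
  have hit : ∀ (F : K) (w : ℝ), F ∈ R → ξ F = (w : ℂ) • F → ∀ j : ℕ,
      tw Y 1 1 F j ∈ Sj R h (j * j₀) ∧
        ξ (tw Y 1 1 F j) = ((w + j * (w₀ - a) : ℝ) : ℂ) • tw Y 1 1 F j := by
    intro F w hF hw j
    induction j with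
    | zero =>
      refine ⟨?_, ?_⟩
      · show F ∈ Sj R h (0 * j₀)
        rw [zero_mul]
        exact ⟨hF, by rw [pow_zero, mul_one]; exact hF⟩
      · show ξ F = _ • F
        rw [hw]
        simp
    | succ j ih =>
      rw [htw]
      refine ⟨?_, ?_⟩
      · rw [Nat.succ_mul]
        exact yy_mem hC hB hξh hZh hφ o.mem ih.1
      · have h1 := yy_wt hZ hφ ih.2
        rw [hY, h1]
        congr 2
        push_cast
        ring
  have hvan : ∀ F ∈ R, ∀ (w : ℝ), ξ F = (w : ℂ) • F → ∀ j : ℕ, w < j * a →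
      tw Y 1 1 F j = 0 := by
    intro F hF w hw j hlt
    by_contra h0
    obtain ⟨h1, h2⟩ := hit F w hF hw j
    have h3 := o.opt _ _ _ h1 h0 h2
    have hj₀ : (0 : ℝ) < j₀ := Nat.cast_pos.2 o.jpos
    push_cast at h3
    have h4 : (j : ℝ) * a * j₀ ≤ w * j₀ := by nlinarith
    have h5 := le_of_mul_le_mul_right h4 hj₀
    linarith
  obtain ⟨hdZ, hdY⟩ := s_XD K R ξ J a hC ha Z hZ hB
  have hdiv : IsDiv J Y ((1 / ((1 : ℕ) : K)) * (Y 1 / 1)) := by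
    rw [hY1, zero_div, mul_zero]
    exact hdY φ w₀ hφ
  obtain ⟨u, hu0, hLD, -, hu4, -⟩ := Helper37.D4.s_DEx K R ξ J a hC Y 1 1 a hY0 one_ne_zero
    one_pos hdiv ha hvan
  have hYφ : Y φ = 0 := by
    rw [hY, yy_apply hφ]
    ring
  have huφ := hu4 φ w₀ o.mem.1 o.ne hφ hYφ hY1
  have hLD0 : LDLe J u 0 := by
    rw [div_self ha.ne', sub_self] at hLD
    exact hLD
  have hfin := (Helper37.D4.s_T0 K R ξ J v a V hC hM.toMin u 0 hu0 hLD0).2 φ w₀ o.mem.1 o.ne hφ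
  rw [huφ, mul_zero, mul_div_cancel₀ _ ha.ne'] at hfin
  linarith

end Pool.Agent.Helper87.D4
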