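import Pool.Agent.Helper88.D4.Stmts6
import Pool.Agent.Helper76.D4.Base
import Pool.Agent.Helper46.D4.Poi
import Pool.Agent.Helper94.D4.Wts
import Pool.Agent.Helper11.D4.EX1
import Pool.Agent.Helper12.D4.Ai
import Pool.Agent.Helper14.D4.Sd

/-!
# Project D4 (MP_e1889a_ag), stage 6: the divergence of a regular fractional derivation of negative
degree is zero (piece S_DVZ)
-/

set_option autoImplicit false

namespace Pool.Agent.Helper87.D4.DVZ

open Module Pool.Agent.Helper37.SD Pool.Agent.Helper20.TS Pool.Agent.Helper88.D4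
  Pool.Agent.Helper12.D4

variable {K : Type} [Field K] [Algebra ℂ K] {J : Bra K}

/-- the Lie derivative of the bracket -/
def LZ (J : Bra K) (Z : Derivation ℂ K K) (f : Fin 4 → K) : K :=
  Z (brk J f) - ∑ i, brk J (Function.update f i (Z (f i)))

theorem LZ_update (hA : IsAlt J) (Z : Derivation ℂ K K) (f : Fin 4 → K) (i : Fin 4) :
    ∃ D : Derivation ℂ K K, ∀ x, LZ J Z (Function.update f i x) = D x := by
  obtain ⟨D, hD⟩ := brk_update hA f i
  choose E hE using fun k : Fin 4 => brk_update hA (Function.update f k (Z (f k))) i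
  refine ⟨⁅Z, D⁆ - ∑ k ∈ Finset.univ.erase i, E k, fun x => ?_⟩
  rw [LZ, hD, ← Finset.add_sum_erase _ _ (Finset.mem_univ i), Function.update_self,
    Function.update_idem, hD, Derivation.sub_apply, Derivation.commutator_apply, der_sum]
  have h : ∑ k ∈ Finset.univ.erase i, brk J (Function.update (Function.update f i x) k
      (Z (Function.update f i x k))) = ∑ k ∈ Finset.univ.erase i, E k x := by
    refine Finset.sum_congr rfl fun k hk => ?_
    have hki : k ≠ i := Finset.ne_of_mem_erase hk
    rw [Function.update_of_ne hki, ← hE k x, Function.update_comm hki]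
  rw [h]
  ring

theorem brk_swap (hA : IsAlt J) (f : Fin 4 → K) (i j : Fin 4) (hij : i ≠ j) (he : f i = f j)
    (w : K) : brk J (Function.update f i w) + brk J (Function.update f j w) = 0 := by
  have hD : ∀ s, brk J (Function.update (Function.update f i s) j s) = 0 := fun s =>
    brk_zero hA _ i j hij (by
      rw [Function.update_self, Function.update_of_ne hij, Function.update_self])
  have h1 : ∀ s t t', brk J (Function.update (Function.update f i s) j (t + t')) =
      brk J (Function.update (Function.update f i s) j t) +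
        brk J (Function.update (Function.update f i s) j t') := by
    intro s t t'
    obtain ⟨D, hD⟩ := brk_update hA (Function.update f i s) j
    rw [hD, hD, hD, map_add]
  have h2 : ∀ s s' t, brk J (Function.update (Function.update f i (s + s')) j t) =
      brk J (Function.update (Function.update f i s) j t) +
        brk J (Function.update (Function.update f i s') j t) := by
    intro s s' t
    obtain ⟨D, hD⟩ := brk_update hA (Function.update f j t) i
    have h3 : ∀ s, Function.update (Function.update f i s) j t =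
        Function.update (Function.update f j t) i s := fun s => Function.update_comm hij s t f
    rw [h3, h3, h3, hD, hD, hD, map_add]
  have h3 := hD (f i + w)
  rw [h1, h2, h2, hD, hD, zero_add, add_zero] at h3
  have h4 : Function.update (Function.update f i w) j (f i) = Function.update f i w := by
    rw [he]
    conv_lhs => rw [← Function.update_of_ne hij.symm w f]
    rw [Function.update_eq_self]
  have h5 : Function.update (Function.update f i (f i)) j w = Function.update f j w := by
    rw [Function.update_eq_self]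
  rw [h4, h5] at h3
  exact h3

theorem LZ_zero (hA : IsAlt J) (Z : Derivation ℂ K K) (f : Fin 4 → K) (i j : Fin 4) (hij : i ≠ j)
    (he : f i = f j) : LZ J Z f = 0 := by
  rw [LZ, brk_zero hA f i j hij he, map_zero, zero_sub, neg_eq_zero,
    ← Finset.add_sum_erase _ _ (Finset.mem_univ i),
    ← Finset.add_sum_erase _ _ (Finset.mem_erase.2 ⟨hij.symm, Finset.mem_univ j⟩)]
  have h : ∑ k ∈ (Finset.univ.erase i).erase j, brk J (Function.update f k (Z (f k))) = 0 := by
    refine Finset.sum_eq_zero fun k hk => ?_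
    have hkj : k ≠ j := Finset.ne_of_mem_erase hk
    have hki : k ≠ i := Finset.ne_of_mem_erase (Finset.mem_of_mem_erase hk)
    exact brk_zero hA _ i j hij (by
      rw [Function.update_of_ne hki.symm, Function.update_of_ne hkj.symm, he])
  rw [h, add_zero, ← he]
  exact brk_swap hA f i j hij he _

/-- The Lie derivative of the bracket is proportional to the bracket. -/
theorem LZ_prop (hA : IsAlt J) (ht : Algebra.trdeg ℂ K = 4) (Z : Derivation ℂ K K)
    {z : Fin 4 → K} (hz : brk J z ≠ 0) (f : Fin 4 → K) :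
    LZ J Z f = LZ J Z z / brk J z * brk J f := by
  have h := key (n := 4) (indep_of_brk hA hz) (by rw [ht]; rfl)
    (fun f => LZ J Z f * brk J z - LZ J Z z * brk J f)
    (by
      intro f i
      obtain ⟨D1, hD1⟩ := LZ_update hA Z f i
      obtain ⟨D2, hD2⟩ := brk_update hA f i
      refine ⟨brk J z • D1 - LZ J Z z • D2, fun x => ?_⟩
      rw [hD1, hD2, Derivation.sub_apply, Derivation.smul_apply, Derivation.smul_apply,
        smul_eq_mul, smul_eq_mul]
      ring)
    (by
      intro f i j hij he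
      rw [brk_zero hA f i j hij he, LZ_zero hA Z f i j hij he]
      ring)
    (by ring) f
  have h' : LZ J Z f * brk J z - LZ J Z z * brk J f = 0 := h
  rw [div_mul_eq_mul_div, eq_div_iff hz]
  linear_combination h'

/-- Cramer's rule -/
theorem cramer (hA : IsAlt J) (ht : Algebra.trdeg ℂ K = 4) (E : Derivation ℂ K K)
    {f : Fin 4 → K} (hf : brk J f ≠ 0) (g : K) :
    ∑ i, E (f i) * brk J (Function.update f i g) = E g * brk J f := by
  choose D hD using fun i : Fin 4 => brk_update hA f i
  have h : ∑ i, E (f i) • D i = brk J f • E := by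
    refine sub_eq_zero.1 (der_zero (indep_of_brk hA hf) (by rw [ht]; rfl) _ fun j => ?_)
    rw [Derivation.sub_apply, der_sum, Derivation.smul_apply, smul_eq_mul,
      Finset.sum_eq_single j]
    · rw [Derivation.smul_apply, smul_eq_mul, ← hD j, Function.update_eq_self]
      ring
    · intro i _ hij
      rw [Derivation.smul_apply, smul_eq_mul, ← hD i,
        brk_zero hA _ i j hij (by rw [Function.update_self, Function.update_of_ne hij.symm]),
        mul_zero]
    · intro h
      exact absurd (Finset.mem_univ j) h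
  have h2 := congrArg (fun D => D g) h
  simp only [der_sum, Derivation.smul_apply, smul_eq_mul] at h2
  simp only [hD]
  rw [h2, mul_comm]

theorem LZ_smul (hA : IsAlt J) (ht : Algebra.trdeg ℂ K = 4) (q : K) (Z : Derivation ℂ K K)
    {f : Fin 4 → K} (hf : brk J f ≠ 0) :
    LZ J (q • Z) f = q * LZ J Z f - Z q * brk J f := by
  have h : ∀ i, brk J (Function.update f i (q * Z (f i))) =
      q * brk J (Function.update f i (Z (f i))) + Z (f i) * brk J (Function.update f i q) := by
    intro i
    obtain ⟨D, hD⟩ := brk_update hA f i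
    rw [hD, hD, hD, Derivation.leibniz, smul_eq_mul, smul_eq_mul]
  simp only [LZ, Derivation.smul_apply, smul_eq_mul, h, Finset.sum_add_distrib,
    cramer hA ht Z hf q, ← Finset.mul_sum]
  ring

/-- the weight of a bracket -/
theorem brk_wt (hA : IsAlt J) {ξ : Derivation ℂ K K} {a : ℂ} (hH : HomBra ξ a J) {f : Fin 4 → K}
    {w : Fin 4 → ℂ} (hf : ∀ i, ξ (f i) = w i • f i) :
    ξ (brk J f) = (∑ i, w i - a) • brk J f := by
  have h : ∀ i, brk J (Function.update f i (w i • f i)) = w i • brk J f := by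
    intro i
    obtain ⟨D, hD⟩ := brk_update hA f i
    rw [hD, D.map_smul, ← hD, Function.update_eq_self]
  have h0 := h 0
  have h1 := h 1
  have h2 := h 2
  have h3 := h 3
  simp only [← hf, brk] at h0 h1 h2 h3
  simp at h0 h1 h2 h3
  rw [brk, hH, h0, h1, h2, h3, Fin.sum_univ_four, sub_smul, add_smul, add_smul, add_smul]

/-- the weight of the Lie derivative of the bracket -/
theorem LZ_wt (hA : IsAlt J) {ξ : Derivation ℂ K K} {a : ℂ} (hH : HomBra ξ a J)
    {Z : Derivation ℂ K K} {ζ : ℂ} (hZ : ⁅ξ, Z⁆ = ζ • Z) {z : Fin 4 → K} {w : Fin 4 → ℂ}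
    (hz : ∀ i, ξ (z i) = w i • z i) :
    ξ (LZ J Z z) = (∑ i, w i - a + ζ) • LZ J Z z := by
  have hξZ : ∀ g (c : ℂ), ξ g = c • g → ξ (Z g) = (c + ζ) • Z g := by
    intro g c hg
    have h := congrArg (fun D => D g) hZ
    simp only [Derivation.commutator_apply, Derivation.smul_apply, hg, Derivation.map_smul] at h
    rw [add_smul, ← h]
    abel
  rw [LZ, map_sub, hξZ _ _ (brk_wt hA hH hz), map_sum, smul_sub, Finset.smul_sum]
  congr 1
  refine Finset.sum_congr rfl fun k _ => ?_
  rw [brk_wt hA hH (w := Function.update w k (w k + ζ))]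
  · rw [Finset.sum_update_of_mem (Finset.mem_univ k)]
    congr 1
    have := Finset.add_sum_erase Finset.univ w (Finset.mem_univ k)
    rw [Finset.erase_eq] at this
    rw [← this]
    ring
  · intro i
    by_cases hi : i = k
    · subst hi
      rw [Function.update_self, Function.update_self]
      exact hξZ _ _ (hz i)
    · rw [Function.update_of_ne hi, Function.update_of_ne hi]
      exact hz i

/-- the weight of the divergence -/
theorem div_wt (hA : IsAlt J) {ξ : Derivation ℂ K K} {a : ℂ} (hH : HomBra ξ a J)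
    {Z : Derivation ℂ K K} {ζ : ℂ} (hZ : ⁅ξ, Z⁆ = ζ • Z) {z : Fin 4 → K} {w : Fin 4 → ℂ}
    (hz : ∀ i, ξ (z i) = w i • z i) (hb : brk J z ≠ 0) {x : K} {b : ℂ} (hx : ξ x = b • x)
    (hx0 : x ≠ 0) (N : ℕ) :
    ξ (LZ J Z z / brk J z - 1 / (N : K) * (Z x / x)) =
      ζ • (LZ J Z z / brk J z - 1 / (N : K) * (Z x / x)) := by
  have h1 := LZ_wt hA hH hZ hz
  have h2 := brk_wt hA hH hz
  have h3 : ξ (Z x) = (b + ζ) • Z x := by
    have h := congrArg (fun D => D x) hZ
    simp only [Derivation.commutator_apply, Derivation.smul_apply, hx, Derivation.map_smul] at h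
    rw [add_smul, ← h]
    abel
  have h4 : ξ (1 / (N : K)) = 0 := by
    have : (1 / (N : K)) = algebraMap ℂ K (1 / (N : ℂ)) := by
      rw [map_div₀, map_one, map_natCast]
    rw [this, Derivation.map_algebraMap]
  rw [map_sub, Derivation.leibniz, h4, Derivation.leibniz_div, Derivation.leibniz_div, h1, h2, h3,
    hx]
  generalize 1 / (N : K) = c
  simp only [smul_eq_mul]
  simp only [Algebra.smul_def, map_add, map_sub]
  field_simp
  ring

/-- the local bound -/
theorem div_ge {R : Subalgebra ℂ K} {ξ : Derivation ℂ K K} {a : ℝ} (hC : Cone4 R ξ J a)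
    {u : RVal K} (hu : PDiv R u) {Z : Derivation ℂ K K} {x : K} (hx0 : x ≠ 0) {N : ℕ} (hN : 0 < N)
    {t : ℤ} (hxt : u.val x = N * t) (hZ : ∀ F, u.Ge 0 F → u.Ge (-(t : ℝ)) (Z F)) {z : Fin 4 → K}
    (hz : brk J z ≠ 0) :
    u.Ge (-(t : ℝ)) (LZ J Z z / brk J z - 1 / (N : K) * (Z x / x)) := by
  have hA := hC.alt
  have hchar : CharZero K := charZero_of_injective_algebraMap (algebraMap ℂ K).injective
  have hN0 : (N : K) ≠ 0 := Nat.cast_ne_zero.2 hN.ne'
  obtain ⟨f0, hf0, f1, hf1, f2, hf2, f3, hf3, hne, huv⟩ := hC.gen u hu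
  obtain ⟨p, -, hp0, hp1⟩ := hu.unif
  set f : Fin 4 → K := ![f0, f1, f2, f3] with hf
  have hfR : ∀ i, f i ∈ R := by
    intro i
    fin_cases i
    exacts [hf0, hf1, hf2, hf3]
  have hbf : brk J f ≠ 0 := by rw [hf, brk_apply]; exact hne
  have hub : u.val (brk J f) = 0 := by rw [hf, brk_apply]; exact huv
  have hbR : brk J f ∈ R := hC.reg _ (hfR 0) _ (hfR 1) _ (hfR 2) _ (hfR 3)
  have hη : LZ J Z z / brk J z = LZ J Z f / brk J f := by
    rw [LZ_prop hA hC.trdeg Z hz f, mul_div_cancel_right₀ _ hbf]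
  -- `Z = q • Z'`
  set q : K := (p ^ t)⁻¹ with hq
  have hpt : p ^ t ≠ 0 := zpow_ne_zero _ hp0
  have hq0 : q ≠ 0 := inv_ne_zero hpt
  have hupt : u.val (p ^ t) = t := by rw [Helper14.D4.val_zpow u hp0, hp1, mul_one]
  have huq : u.val q = -(t : ℝ) := by rw [hq, u.val_inv hpt, hupt]
  set Z' : Derivation ℂ K K := p ^ t • Z with hZ'
  have hZq : Z = q • Z' := by rw [hZ', smul_smul, hq, inv_mul_cancel₀ hpt, one_smul]
  have hZ'ge : ∀ F, u.Ge 0 F → u.Ge 0 (Z' F) := by
    intro F hF
    rw [hZ', Derivation.smul_apply, smul_eq_mul]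
    have := u.ge_mul (Or.inr le_rfl : u.Ge (u.val (p ^ t)) (p ^ t)) (hZ F hF)
    rwa [hupt, add_neg_cancel] at this
  -- `x = ε / q ^ N`
  set ε : K := x * q ^ N with hε
  have hqN : q ^ N ≠ 0 := pow_ne_zero _ hq0
  have hε0 : ε ≠ 0 := mul_ne_zero hx0 hqN
  have huε : u.val ε = 0 := by
    rw [hε, u.map_mul _ _ hx0 hqN, hxt, u.val_pow hq0, huq]
    ring
  have hLε : u.Ge 0 (Z' ε / ε) := by
    have := u.ge_div (hZ'ge ε (Or.inr huε.ge)) hε0
    rwa [huε, sub_zero] at this
  have hdε : Z' ε / ε = Z' x / x + N * (Z' q / q) := by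
    rw [hε, Derivation.leibniz, Derivation.leibniz_pow]
    simp only [smul_eq_mul, nsmul_eq_mul]
    obtain ⟨n, rfl⟩ : ∃ n, N = n + 1 := ⟨N - 1, by omega⟩
    rw [Nat.add_sub_cancel]
    field_simp
    ring
  have hkey : LZ J Z z / brk J z - 1 / (N : K) * (Z x / x) =
      q * ((LZ J Z' f - 1 / (N : K) * (Z' ε / ε) * brk J f) / brk J f) := by
    have e1 : LZ J Z f = q * LZ J Z' f - Z' q * brk J f := by
      rw [← LZ_smul hA hC.trdeg q Z' hbf, ← hZq]
    have e2 : Z x = q * Z' x := by
      rw [← smul_eq_mul, ← Derivation.smul_apply, ← hZq]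
    rw [hη, hdε, e1, e2]
    generalize Z' x = A
    generalize Z' q = B
    generalize LZ J Z' f = C
    field_simp
    ring
  have hone : u.Ge 0 (1 / (N : K)) := by
    refine Or.inr ?_
    have : (1 / (N : K)) = algebraMap ℂ K (1 / (N : ℂ)) := by
      rw [map_div₀, map_one, map_natCast]
    rw [this, u.map_const _ (one_div_ne_zero (Nat.cast_ne_zero.2 hN.ne'))]
  have hfge : ∀ i, u.Ge 0 (f i) := fun i => Helper76.D4.ge_of_mem hu (hfR i)
  have hbge : u.Ge 0 (brk J f) := Helper76.D4.ge_of_mem hu hbR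
  have hL : u.Ge 0 (LZ J Z' f) := by
    rw [LZ]
    refine u.ge_sub (hZ'ge _ hbge) (u.ge_sum _ _ fun i _ => ?_)
    have hup : ∀ j, u.Ge 0 (Function.update f i (Z' (f i)) j) := by
      intro j
      by_cases hj : j = i
      · subst hj
        rw [Function.update_self]
        exact hZ'ge _ (hfge j)
      · rw [Function.update_of_ne hj]
        exact hfge j
    exact Helper76.D4.bra_ge hC hu (hup 1) (hup 2) (hup 3) (hup 0)
  have h1 : u.Ge 0 (1 / (N : K) * (Z' ε / ε) * brk J f) := by
    have := u.ge_mul (u.ge_mul hone hLε) hbge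
    simpa using this
  have h2 : u.Ge 0 ((LZ J Z' f - 1 / (N : K) * (Z' ε / ε) * brk J f) / brk J f) := by
    have := u.ge_div (u.ge_sub hL h1) hbf
    rwa [hub, sub_zero] at this
  rw [hkey]
  have := u.ge_mul (Or.inr le_rfl : u.Ge (u.val q) q) h2
  rwa [huq, add_zero] at this

/-- **S_DVZ** -/
theorem s_DVZ : S_DVZ := by
  intro K _ _ R ξ J a hC Z x N b ζ hcomp hx hZ hd f
  have hA := hC.alt
  obtain ⟨w, z, hz, hbz⟩ := Helper46.D4.hom_frame hC.toIsCone hA
  set η : K := LZ J Z z / brk J z - 1 / (N : K) * (Z x / x) with hη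
  have hN := hcomp.pos
  have hx0 := hcomp.ne
  have hηw : ξ η = (ζ : ℂ) • η :=
    div_wt hA hC.hom hZ (w := fun i => (w i : ℂ)) (fun i => (hz i).2) hbz hx hx0 N
  have hR : x * η ^ N ∈ R := by
    by_contra hcon
    obtain ⟨u, hu, hlt⟩ := Helper11.D4.s_EX1 K R hC.frac hC.fg hC.normal _ hcon
    obtain ⟨t, hxt, hZt⟩ := hcomp.reg u hu
    have h0 : x * η ^ N ≠ 0 := fun h => hcon (by rw [h]; exact R.zero_mem)
    have hη0 : η ≠ 0 := by
      rintro h
      apply h0
      rw [h, zero_pow hN.ne', mul_zero]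
    have h1 := (div_ge hC hu hx0 hN hxt hZt hbz).resolve_left hη0
    rw [u.map_mul _ _ hx0 (pow_ne_zero _ hη0), u.val_pow hη0, hxt] at hlt
    have h2 : (N : ℝ) * (-(t : ℝ)) ≤ N * u.val η := mul_le_mul_of_nonneg_left h1 (Nat.cast_nonneg N)
    linarith
  have hwt : ξ (x * η ^ N) = ((b + N * ζ : ℝ) : ℂ) • (x * η ^ N) := by
    rw [Derivation.leibniz, Derivation.leibniz_pow, hx, hηw]
    have e : ((b + N * ζ : ℝ) : ℂ) = (b : ℂ) + (N : ℂ) * (ζ : ℂ) := by push_cast; rfl
    rw [e]
    clear_value η
    obtain ⟨n, rfl⟩ : ∃ n, N = n + 1 := ⟨N - 1, by omega⟩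
    rw [Nat.add_sub_cancel]
    simp only [smul_eq_mul, nsmul_eq_mul]
    rw [Algebra.smul_def, Algebra.smul_def, Algebra.smul_def, map_add, map_mul, map_natCast]
    ring
  have hη0 : η = 0 := by
    by_contra h
    have h1 := Helper94.D4.eig_nonneg hC.toIsCone hR (mul_ne_zero hx0 (pow_ne_zero _ h)) hwt
    have hNr : (0 : ℝ) < N := Nat.cast_pos.2 hN
    have h2 : -(b / N + ζ) * N = -(b + N * ζ) := by
      field_simp
    have h3 := mul_pos hd hNr
    rw [h2] at h3
    linarith
  have h1 := LZ_prop hA hC.trdeg Z hbz f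
  have h2 : LZ J Z z / brk J z = 1 / (N : K) * (Z x / x) := sub_eq_zero.1 (hη ▸ hη0)
  rw [h2, LZ] at h1
  linear_combination h1

end Pool.Agent.Helper87.D4.DVZ
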