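import Pool.Agent.Helper76.D4.Stmts7
import Pool.Agent.Helper87.D4.DVZ

/-!
# Project D4 (MP_e1889a_ag), stage 7: the divergence at a prime divisor (piece S_DG)
-/

set_option autoImplicit false

namespace Pool.Agent.Helper87.D4

open Module Pool.Agent.Helper37.SD Pool.Agent.Helper20.TS Pool.Agent.Helper88.D4
  Pool.Agent.Helper12.D4 Pool.Agent.Helper76.D4 Pool.Agent.Helper87.D4.DVZ

variable {K : Type} [Field K] [Algebra ℂ K] {J : Bra K}

theorem isDiv_iff {Z : Derivation ℂ K K} {δ : K} :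
    IsDiv J Z δ ↔ ∀ f, LZ J Z f = δ * brk J f := by
  refine forall_congr' fun f => ?_
  rw [LZ]
  constructor
  · intro h
    rw [h]
    ring
  · intro h
    rw [← h]
    ring

/-- every derivation has a divergence -/
theorem exists_isDiv (hA : IsAlt J) (ht : Algebra.trdeg ℂ K = 4) (Z : Derivation ℂ K K)
    {z : Fin 4 → K} (hz : brk J z ≠ 0) : IsDiv J Z (LZ J Z z / brk J z) :=
  isDiv_iff.2 fun f => LZ_prop hA ht Z hz f

theorem LZ_ge {R : Subalgebra ℂ K} {ξ : Derivation ℂ K K} {a : ℝ} (hC : Cone4 R ξ J a)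
    {u : RVal K} (hu : PDiv R u) {Z : Derivation ℂ K K} (hZ : ∀ F, u.Ge 0 F → u.Ge 0 (Z F))
    {f : Fin 4 → K} (hf : ∀ i, u.Ge 0 (f i)) (hb : u.Ge 0 (brk J f)) : u.Ge 0 (LZ J Z f) := by
  rw [LZ]
  refine u.ge_sub (hZ _ hb) (u.ge_sum _ _ fun i _ => ?_)
  have hup : ∀ j, u.Ge 0 (Function.update f i (Z (f i)) j) := by
    intro j
    by_cases hj : j = i
    · subst hj
      rw [Function.update_self]
      exact hZ _ (hf j)
    · rw [Function.update_of_ne hj]
      exact hf j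
  exact Helper76.D4.bra_ge hC hu (hup 1) (hup 2) (hup 3) (hup 0)

/-- **S_DG** -/
theorem s_DG : S_DG := by
  intro K _ _ R ξ J a hC Z δ hδ u hu t hZ p hp0 hp1
  have hA := hC.alt
  obtain ⟨f0, hf0, f1, hf1, f2, hf2, f3, hf3, hne, huv⟩ := hC.gen u hu
  set f : Fin 4 → K := ![f0, f1, f2, f3] with hf
  have hfR : ∀ i, f i ∈ R := by
    intro i
    fin_cases i
    exacts [hf0, hf1, hf2, hf3]
  have hbf : brk J f ≠ 0 := by rw [hf, brk_apply]; exact hne
  have hub : u.val (brk J f) = 0 := by rw [hf, brk_apply]; exact huv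
  have hbR : brk J f ∈ R := hC.reg _ (hfR 0) _ (hfR 1) _ (hfR 2) _ (hfR 3)
  -- `Z = q • Z'`
  set q : K := (p ^ t)⁻¹ with hq
  have hpt : p ^ t ≠ 0 := zpow_ne_zero _ hp0
  have hq0 : q ≠ 0 := inv_ne_zero hpt
  have hupt : u.val (p ^ t) = t := by rw [Helper14.D4.val_zpow u hp0, hp1, mul_one]
  have huq : u.val q = -(t : ℝ) := by rw [hq, u.val_inv hpt, hupt]
  set Z' : Derivation ℂ K K := p ^ t • Z with hZ'
  have hZq : Z = q • Z' := by rw [hZ', smul_smul, hq, inv_mul_cancel₀ hpt, one_smul]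
  have hZ'ge : ∀ F, u.Ge 0 F → u.Ge 0 (Z' F) := by
    intro F hF
    rw [hZ', Derivation.smul_apply, smul_eq_mul]
    have := u.ge_mul (Or.inr le_rfl : u.Ge (u.val (p ^ t)) (p ^ t)) (hZ F hF)
    rwa [hupt, add_neg_cancel] at this
  have e1 : δ * brk J f = q * LZ J Z' f - Z' q * brk J f := by
    rw [← LZ_smul hA hC.trdeg q Z' hbf, ← hZq]
    exact (isDiv_iff.1 hδ f).symm
  have e2 : Z' q = -((t : K) * (Z p / p)) := by
    rw [hZ', hq, Derivation.smul_apply, Derivation.leibniz_inv, Derivation.leibniz_zpow]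
    simp only [smul_eq_mul, zsmul_eq_mul]
    rw [zpow_sub_one₀ hp0]
    field_simp
  have hkey : δ - (t : K) * (Z p / p) = q * (LZ J Z' f / brk J f) := by
    rw [e2] at e1
    rw [← mul_div_assoc q, eq_div_iff hbf]
    linear_combination e1
  have hL := LZ_ge hC hu hZ'ge (fun i => Helper76.D4.ge_of_mem hu (hfR i))
    (Helper76.D4.ge_of_mem hu hbR)
  have h2 : u.Ge 0 (LZ J Z' f / brk J f) := by
    have := u.ge_div hL hbf
    rwa [hub, sub_zero] at this
  rw [hkey]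
  have := u.ge_mul (Or.inr le_rfl : u.Ge (u.val q) q) h2
  rwa [huq, add_zero] at this

end Pool.Agent.Helper87.D4
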