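import Pool.Agent.Helper87.D4.DGx
import Pool.Agent.Helper38.D4.UNT

/-!
# Project D4 (MP_e1889a_ag), stage 7: the divergence of the complementary derivation (piece S_XD)
-/

set_option autoImplicit false

namespace Pool.Agent.Helper87.D4

open Module Pool.Agent.Helper37.SD Pool.Agent.Helper20.TS Pool.Agent.Helper88.D4
  Pool.Agent.Helper12.D4 Pool.Agent.Helper76.D4 Pool.Agent.Helper87.D4.DVZ

variable {K : Type} [Field K] [Algebra ℂ K] {J : Bra K}

/-- the divergence of `g Z` is `g div Z - Z g` -/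
theorem isDiv_smul (hA : IsAlt J) (ht : Algebra.trdeg ℂ K = 4) {Z : Derivation ℂ K K} {δ : K}
    {z : Fin 4 → K} (hz : brk J z ≠ 0) (h : IsDiv J Z δ) (g : K) :
    IsDiv J (g • Z) (g * δ - Z g) := by
  rw [isDiv_iff] at h ⊢
  intro f
  rw [LZ_prop hA ht _ hz f, LZ_smul hA ht g Z hz, h z]
  field_simp
  try ring

theorem isDiv_sub (hA : IsAlt J) {Z Y : Derivation ℂ K K} {δ η : K} (h : IsDiv J Z δ)
    (h' : IsDiv J Y η) : IsDiv J (Z - Y) (δ - η) := by
  rw [isDiv_iff] at h h' ⊢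
  intro f
  have e : LZ J (Z - Y) f = LZ J Z f - LZ J Y f := by
    have : ∀ i, brk J (Function.update f i ((Z - Y) (f i))) =
        brk J (Function.update f i (Z (f i))) - brk J (Function.update f i (Y (f i))) := by
      intro i
      obtain ⟨D, hD⟩ := brk_update hA f i
      rw [hD, hD, hD, Derivation.sub_apply, map_sub]
    simp only [LZ]
    rw [Finset.sum_congr rfl fun i _ => this i, Finset.sum_sub_distrib, Derivation.sub_apply]
    ring
  rw [e, h, h']
  ring

/-- the divergence of the Reeb field -/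
theorem isDiv_xi {ξ : Derivation ℂ K K} {a : ℂ} (hH : HomBra ξ a J) :
    IsDiv J ξ (-algebraMap ℂ K a) := by
  intro f
  rw [brk, hH, Fin.sum_univ_four, Algebra.smul_def]
  simp [brk]
  ring

/-- **S_XD** -/
theorem s_XD : S_XD := by
  intro K _ _ R ξ J a hC ha Z hZ hB
  have hA := hC.alt
  obtain ⟨w, z, hz, hbz⟩ := Helper46.D4.hom_frame hC.toIsCone hA
  set δ : K := LZ J Z z / brk J z with hδ
  have hdZ : IsDiv J Z δ := exists_isDiv hA hC.trdeg Z hbz
  have hdξ := isDiv_xi hC.hom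
  have hξZ : ∀ g (c : ℝ), ξ g = (c : ℂ) • g → ξ (Z g) = ((c - a : ℝ) : ℂ) • Z g := by
    intro g c hg
    have h := congrArg (fun D => D g) hZ
    simp only [Derivation.commutator_apply, Derivation.smul_apply, hg, Derivation.map_smul] at h
    rw [sub_eq_iff_eq_add] at h
    rw [h, ← add_smul]
    congr 1
    push_cast
    ring
  have hY : ∀ (φ : K) (w : ℝ), ξ φ = (w : ℂ) • φ →
      IsDiv J (((w : ℂ) • φ) • Z - Z φ • ξ) (((w : ℂ) • φ) * δ) := by
    intro φ w hφ
    have h1 := isDiv_smul hA hC.trdeg hbz hdZ ((w : ℂ) • φ)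
    have h2 := isDiv_smul hA hC.trdeg hbz hdξ (Z φ)
    have h3 := isDiv_sub hA h1 h2
    rw [hξZ φ w hφ] at h3
    have e : (w : ℂ) • φ * δ - Z ((w : ℂ) • φ) -
        (Z φ * -(algebraMap ℂ K (a : ℂ)) - ((w - a : ℝ) : ℂ) • Z φ) = (w : ℂ) • φ * δ := by
      rw [Derivation.map_smul]
      simp only [Algebra.smul_def, Complex.ofReal_sub, map_sub]
      ring
    rwa [e] at h3
  have hδge : ∀ u, PDiv R u → u.Ge 0 δ := by
    intro u hu
    obtain ⟨φ, w0, -, hφ0, hw0, hφ, huφ⟩ := Helper38.D4.s_UNT K R ξ J a hC u hu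
    obtain ⟨p, -, hp0, hp1⟩ := hu.unif
    have hYge : ∀ F, u.Ge 0 F → u.Ge (-((0 : ℤ) : ℝ)) ((((w0 : ℂ) • φ) • Z - Z φ • ξ) F) := by
      intro F hF
      have h := hB u hu φ F (Or.inr huφ.ge) hF
      rw [Derivation.sub_apply, Derivation.smul_apply, Derivation.smul_apply, smul_eq_mul,
        smul_eq_mul, ← hφ]
      simpa using h
    have h := s_DG K R ξ J a hC _ _ (hY φ w0 hφ) u hu 0 hYge p hp0 hp1
    have hw : ((w0 : ℂ) • φ) ≠ 0 :=
      smul_ne_zero (Complex.ofReal_ne_zero.2 hw0.ne') hφ0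
    have huw : u.val ((w0 : ℂ) • φ) = 0 := by
      have hc : algebraMap ℂ K (w0 : ℂ) ≠ 0 := by
        rw [Ne, map_eq_zero]
        exact Complex.ofReal_ne_zero.2 hw0.ne'
      rw [Algebra.smul_def, u.map_mul _ _ hc hφ0, huφ,
        u.map_const _ (Complex.ofReal_ne_zero.2 hw0.ne'), add_zero]
    have h2 : u.Ge 0 ((w0 : ℂ) • φ * δ) := by simpa using h
    have h3 := u.ge_div h2 hw
    rw [huw, sub_zero, mul_div_cancel_left₀ _ hw] at h3
    exact h3
  have hδR : δ ∈ R := by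
    by_contra hcon
    obtain ⟨u, hu, hlt⟩ := Helper11.D4.s_EX1 K R hC.frac hC.fg hC.normal _ hcon
    rcases hδge u hu with h | h
    · exact hcon (by rw [h]; exact R.zero_mem)
    · exact absurd hlt (not_lt.2 h)
  have hδw : ξ δ = ((-a : ℝ) : ℂ) • δ := by
    have h := div_wt hA hC.hom hZ (w := fun i => (w i : ℂ)) (fun i => (hz i).2) hbz
      (x := (1 : K)) (b := 0) (by simp) one_ne_zero 1
    simpa using h
  have hδ0 : δ = 0 := by
    by_contra h
    have h1 := Helper94.D4.eig_nonneg hC.toIsCone hδR h hδw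
    linarith
  rw [hδ0] at hdZ
  refine ⟨hdZ, fun φ w hφ => ?_⟩
  have h := hY φ w hφ
  rwa [hδ0, mul_zero] at h

end Pool.Agent.Helper87.D4
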